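import Mathlib
import Pool.Agent.Helper56.SKW.Limit

/-!
# Reduction of subspaces modulo the maximal ideal of a valuation ring
-/

namespace Pool.Agent.Helper56.SKV

open Module Matrix Polynomial

universe u v

section red

variable {K : Type u} [Field K] (O : ValuationSubring K) {n : Type v} [Fintype n]

/-- The reduction of a subspace. -/
def red (W : Submodule K (n → K)) :
    Submodule (IsLocalRing.ResidueField O) (n → IsLocalRing.ResidueField O) where
  carrier := {y | ∃ x : n → O, (fun i => (x i : K)) ∈ W ∧ y = fun i => IsLocalRing.residue O (x i)}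
  add_mem' := by
    rintro _ _ ⟨x, hx, rfl⟩ ⟨x', hx', rfl⟩
    refine ⟨x + x', ?_, ?_⟩
    · have := W.add_mem hx hx'
      exact this
    · funext i
      simp
  zero_mem' := ⟨0, W.zero_mem, by funext i; simp⟩
  smul_mem' := by
    rintro c _ ⟨x, hx, rfl⟩
    obtain ⟨c', rfl⟩ := IsLocalRing.residue_surjective c
    refine ⟨fun i => c' * x i, ?_, ?_⟩
    · have := W.smul_mem (c' : K) hx
      exact this
    · funext i
      simp

variable {O}

omit [Fintype n] in
theorem mem_red {W : Submodule K (n → K)} {y : n → IsLocalRing.ResidueField O} :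
    y ∈ red O W ↔ ∃ x : n → O, (fun i => (x i : K)) ∈ W ∧
      y = fun i => IsLocalRing.residue O (x i) := Iff.rfl

omit [Fintype n] in
theorem red_mono {W W' : Submodule K (n → K)} (h : W ≤ W') : red O W ≤ red O W' := by
  rintro _ ⟨x, hx, rfl⟩
  exact ⟨x, h hx, rfl⟩

theorem red_map (C : Matrix n n O) {W W' : Submodule K (n → K)}
    (hC : ∀ x ∈ W, (C.map O.subtype).mulVec x ∈ W') :
    ∀ y ∈ red O W, (C.map (IsLocalRing.residue O)).mulVec y ∈ red O W' := by
  rintro _ ⟨x, hx, rfl⟩
  refine ⟨C.mulVec x, ?_, ?_⟩
  · have := hC _ hx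
    have e1 : (fun i => ((C.mulVec x i : O) : K)) = (C.map O.subtype).mulVec fun i => (x i : K) := by
      funext i
      simp [mulVec, dotProduct]
    rw [e1]
    exact this
  · funext i
    simp [mulVec, dotProduct]

omit [Fintype n] in
theorem red_bot : red O (⊥ : Submodule K (n → K)) = ⊥ := by
  rw [eq_bot_iff]
  rintro _ ⟨x, hx, rfl⟩
  rw [Submodule.mem_bot] at hx ⊢
  funext i
  have h1 : ((x i : O) : K) = 0 := congrFun hx i
  have h2 : x i = 0 := by exact_mod_cast h1
  simp [h2]

theorem red_finrank (W : Submodule K (n → K)) :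
    finrank (IsLocalRing.ResidueField O) (red O W) = finrank K W := by
  classical
  obtain ⟨d, hd⟩ : ∃ d, finrank K W = d := ⟨_, rfl⟩
  obtain ⟨w, s, hw, hs⟩ := Pool.Agent.Helper56.SKW.exists_echelon O d W hd
  let r := IsLocalRing.residue O
  let w' : Fin d → n → IsLocalRing.ResidueField O := fun a i => r (w a i)
  have hs' : ∀ a b, w' a (s b) = if a = b then 1 else 0 := by
    intro a b
    simp only [w', hs]
    split_ifs
    · exact map_one r
    · exact map_zero r
  have hlin : LinearIndependent (IsLocalRing.ResidueField O) w' := by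
    rw [Fintype.linearIndependent_iff]
    intro g hg b
    have h1 := congrFun hg (s b)
    simp only [Finset.sum_apply, Pi.smul_apply, smul_eq_mul, hs', Pi.zero_apply] at h1
    rw [Finset.sum_eq_single b] at h1
    · simpa using h1
    · intro a _ hab
      simp [hab]
    · simp
  have heq : red O W = Submodule.span _ (Set.range w') := by
    apply le_antisymm
    · rintro _ ⟨x, hx, rfl⟩
      have h1 := Pool.Agent.Helper56.SKW.echelon_expand O hd w s hw hs _ hx
      have h2 : ∀ i, x i = ∑ a, x (s a) * w a i := by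
        intro i
        apply Subtype.ext
        have := h1 i
        push_cast
        exact this
      have h3 : (fun i => IsLocalRing.residue O (x i)) = ∑ a, r (x (s a)) • w' a := by
        funext i
        rw [h2 i]
        simp only [map_sum, map_mul, Finset.sum_apply, Pi.smul_apply, smul_eq_mul, w']
        rfl
      rw [h3]
      exact Submodule.sum_mem _ fun a _ => Submodule.smul_mem _ _ (Submodule.subset_span ⟨a, rfl⟩)
    · rw [Submodule.span_le]
      rintro _ ⟨a, rfl⟩
      exact ⟨w a, hw a, rfl⟩
  rw [heq, finrank_span_eq_card hlin, Fintype.card_fin, hd]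

end red

section alg

variable {K : Type u} [Field K] [IsAlgClosed K] (O : ValuationSubring K)

/-- The residue field of a valuation ring of an algebraically closed field. -/
theorem residue_algClosed : IsAlgClosed (IsLocalRing.ResidueField O) := by
  apply IsAlgClosed.of_exists_root
  intro q hq hirr
  obtain ⟨Q, hQ, hQd, hQm⟩ := Polynomial.lifts_and_natDegree_eq_and_monic
    (f := IsLocalRing.residue O) (p := q)
    (by
      rw [Polynomial.lifts_iff_coeff_lifts]
      intro i
      obtain ⟨c, hc⟩ := IsLocalRing.residue_surjective (q.coeff i)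
      exact ⟨c, hc⟩) hq
  have hQK : (Q.map O.subtype).Monic := hQm.map _
  have hdeg : (Q.map O.subtype).degree ≠ 0 := by
    intro h0
    have h1 : (Q.map O.subtype).natDegree = 0 := natDegree_eq_of_degree_eq_some h0
    rw [hQm.natDegree_map, hQd] at h1
    exact hirr.natDegree_pos.ne' h1
  obtain ⟨κ, hκ⟩ := IsAlgClosed.exists_root _ hdeg
  have hint : IsIntegral O κ := by
    refine ⟨Q, hQm, ?_⟩
    rw [IsRoot, eval_map] at hκ
    exact hκ
  obtain ⟨y, hy⟩ := IsIntegrallyClosed.isIntegral_iff.1 hint
  have hy' : O.subtype y = κ := hy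
  refine ⟨IsLocalRing.residue O y, ?_⟩
  have h2 : Q.eval y = 0 := by
    rw [IsRoot, eval_map, ← hy', eval₂_hom] at hκ
    exact Subtype.val_injective (by simpa using hκ)
  rw [← hQ, eval_map, eval₂_hom, h2, map_zero]

end alg

section spectral

variable {K : Type u} [Field K] [IsAlgClosed K] (O : ValuationSubring K)

omit [IsAlgClosed K] in
theorem isCoprime_multiset (q : K[X]) (s : Multiset K[X]) (h : ∀ p ∈ s, IsCoprime p q) :
    IsCoprime s.prod q := by
  induction s using Multiset.induction with
  | empty => rw [Multiset.prod_zero]; exact isCoprime_one_left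
  | cons a s ih =>
    rw [Multiset.prod_cons]
    exact IsCoprime.mul_left (h a (Multiset.mem_cons_self a s))
      (ih fun p hp => h p (Multiset.mem_cons_of_mem hp))

/-- Spectral idempotents for residue classes of eigenvalues. -/
theorem exists_spectral {A : Type*} [Ring A] [Algebra K A] (b : A) (χ : O[X]) (hχ : χ.Monic)
    (hb : aeval b (χ.map O.subtype) = 0) :
    ∃ (Z : Finset (IsLocalRing.ResidueField O)) (f : IsLocalRing.ResidueField O → A)
      (P : IsLocalRing.ResidueField O → O[X]) (m : IsLocalRing.ResidueField O → ℕ),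
      (∀ z, z ∉ Z → f z = 0) ∧ ∑ z ∈ Z, f z = 1 ∧ (∀ z z', z ≠ z' → f z * f z' = 0) ∧
      (∀ z, (P z).map (IsLocalRing.residue O) = (X - C z) ^ m z) ∧
      (∀ z, aeval b ((P z).map O.subtype) * f z = 0) ∧
      (∀ z, f z * aeval b ((P z).map O.subtype) = 0) ∧
      ∀ z, f z ∈ Algebra.adjoin K {b} := by
  classical
  let res := IsLocalRing.residue O
  have hsub : Function.Injective O.subtype := Subtype.val_injective
  let χK : K[X] := χ.map O.subtype
  have hχK : χK.Monic := hχ.map _
  have hroot : ∀ κ ∈ χK.roots, ∃ κ' : O, O.subtype κ' = κ := by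
    intro κ hκ
    have h1 : IsIntegral O κ := by
      refine ⟨χ, hχ, ?_⟩
      have h2 := (mem_roots hχK.ne_zero).1 hκ
      rw [IsRoot, eval_map] at h2
      exact h2
    obtain ⟨y, hy⟩ := IsIntegrallyClosed.isIntegral_iff.1 h1
    exact ⟨y, hy⟩
  choose! l hl using hroot
  let M : Multiset O := χK.roots.map l
  have hM : χ = (M.map fun x => X - C x).prod := by
    apply Polynomial.map_injective O.subtype hsub
    rw [Polynomial.map_multiset_prod, Multiset.map_map, Multiset.map_map]
    have h3 := (IsAlgClosed.splits χK).eq_prod_roots_of_monic hχK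
    have h4 : χ.map O.subtype = χK := rfl
    rw [h4]
    conv_lhs => rw [h3]
    congr 1
    refine Multiset.map_congr rfl ?_
    intro κ hκ
    simp only [Function.comp_apply, Polynomial.map_sub, Polynomial.map_X, Polynomial.map_C,
      hl κ hκ]
  let Z : Finset (IsLocalRing.ResidueField O) := (M.map res).toFinset
  let Mz : IsLocalRing.ResidueField O → Multiset O := fun z => M.filter fun x => res x = z
  let P : IsLocalRing.ResidueField O → O[X] := fun z => ((Mz z).map fun x => X - C x).prod
  let m : IsLocalRing.ResidueField O → ℕ := fun z => Multiset.card (Mz z)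
  have hP : ∀ z, (P z).map (IsLocalRing.residue O) = (X - C z) ^ m z := by
    intro z
    simp only [P, m]
    rw [Polynomial.map_multiset_prod, Multiset.map_map]
    have h1 : Multiset.map (Polynomial.map (IsLocalRing.residue O) ∘ fun x => X - C x) (Mz z) =
        Multiset.map (fun _ => X - C z) (Mz z) := by
      refine Multiset.map_congr rfl ?_
      intro x hx
      have h2 : res x = z := (Multiset.mem_filter.1 hx).2
      simp only [Function.comp_apply, Polynomial.map_sub, Polynomial.map_X, Polynomial.map_C]
      rw [← h2]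
    rw [h1, Multiset.map_const', Multiset.prod_replicate]
  have hprod : ∏ z ∈ Z, P z = χ := by
    have h1 : ∑ z ∈ Z, Mz z = M := by
      ext a
      rw [Multiset.count_sum']
      simp only [Mz, Multiset.count_filter]
      rw [Finset.sum_ite_eq]
      split_ifs with h
      · rfl
      · symm
        rw [Multiset.count_eq_zero]
        intro ha
        exact h (Multiset.mem_toFinset.2 (Multiset.mem_map_of_mem _ ha))
    rw [hM]
    conv_rhs => rw [← h1]
    have h2 : Multiset.map (fun x => X - C x) (∑ z ∈ Z, Mz z) =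
        ∑ z ∈ Z, Multiset.map (fun x => X - C x) (Mz z) :=
      map_sum (Multiset.mapAddMonoidHom fun x : O => X - C x) _ _
    rw [h2, Multiset.prod_sum]
  rcases subsingleton_or_nontrivial A with hA | hA
  · refine ⟨Z, fun _ => 0, P, m, fun _ _ => rfl, Subsingleton.elim _ _, fun _ _ _ =>
      Subsingleton.elim _ _, hP, fun _ => Subsingleton.elim _ _, fun _ => Subsingleton.elim _ _,
      fun _ => Subalgebra.zero_mem _⟩
  have hZ : Z.Nonempty := by
    rw [Finset.nonempty_iff_ne_empty]
    intro h0
    rw [h0, Finset.prod_empty] at hprod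
    rw [← hprod, Polynomial.map_one, map_one] at hb
    exact one_ne_zero hb
  let s : IsLocalRing.ResidueField O → K[X] := fun z => (P z).map O.subtype
  have hs : ∏ z ∈ Z, s z = χK := by
    simp only [s, χK]
    rw [← Polynomial.map_prod, hprod]
  have hcop : ∀ z z', z ≠ z' → IsCoprime (s z) (s z') := by
    intro z z' hzz
    simp only [s, P]
    rw [Polynomial.map_multiset_prod, Polynomial.map_multiset_prod, Multiset.map_map,
      Multiset.map_map]
    refine isCoprime_multiset _ _ ?_
    intro p hp
    obtain ⟨x, hx, rfl⟩ := Multiset.mem_map.1 hp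
    apply IsCoprime.symm
    refine isCoprime_multiset _ _ ?_
    intro p' hp'
    obtain ⟨x', hx', rfl⟩ := Multiset.mem_map.1 hp'
    simp only [Function.comp_apply, Polynomial.map_sub, Polynomial.map_X, Polynomial.map_C]
    apply Polynomial.isCoprime_X_sub_C_of_isUnit_sub
    rw [isUnit_iff_ne_zero, sub_ne_zero]
    intro h
    apply hzz
    have h3 : x' = x := Subtype.val_injective h
    rw [← (Multiset.mem_filter.1 hx).2, ← (Multiset.mem_filter.1 hx').2, h3]
  obtain ⟨μ, hμ⟩ := (exists_sum_eq_one_iff_pairwise_coprime (s := s) hZ).2 (by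
    intro i j hij
    exact hcop _ _ fun h => hij (Subtype.ext h))
  have hdvd : ∀ q : K[X], χK ∣ q → aeval b q = 0 := by
    rintro q ⟨c, rfl⟩
    have h1 : aeval b χK = 0 := hb
    rw [map_mul, h1, zero_mul]
  have hsplit : ∀ z ∈ Z, s z * ∏ j ∈ Z \ {z}, s j = χK := by
    intro z hz
    rw [← hs, ← Finset.mul_prod_erase Z s hz, Finset.sdiff_singleton_eq_erase]
  let f : IsLocalRing.ResidueField O → A := fun z =>
    if z ∈ Z then aeval b (μ z * ∏ j ∈ Z \ {z}, s j) else 0
  have hf : ∀ z ∈ Z, f z = aeval b (μ z * ∏ j ∈ Z \ {z}, s j) := fun z hz => if_pos hz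
  have hf0 : ∀ z, z ∉ Z → f z = 0 := fun z hz => if_neg hz
  refine ⟨Z, f, P, m, hf0, ?_, ?_, hP, ?_, ?_, ?_⟩
  · rw [Finset.sum_congr rfl hf, ← map_sum, hμ, map_one]
  · intro z z' hzz
    by_cases hz : z ∈ Z
    · by_cases hz' : z' ∈ Z
      · rw [hf z hz, hf z' hz', ← map_mul]
        apply hdvd
        have h1 : s z ∣ ∏ j ∈ Z \ {z'}, s j :=
          Finset.dvd_prod_of_mem s (by simp [hz, hzz])
        obtain ⟨c, hc⟩ := h1
        refine ⟨μ z * μ z' * c, ?_⟩
        rw [hc, ← hsplit z hz]
        ring
      · rw [hf0 z' hz', mul_zero]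
    · rw [hf0 z hz, zero_mul]
  · intro z
    by_cases hz : z ∈ Z
    · rw [hf z hz, ← map_mul]
      apply hdvd
      refine ⟨μ z, ?_⟩
      rw [← hsplit z hz]
      ring
    · rw [hf0 z hz, mul_zero]
  · intro z
    by_cases hz : z ∈ Z
    · rw [hf z hz, ← map_mul]
      apply hdvd
      refine ⟨μ z, ?_⟩
      rw [← hsplit z hz]
      ring
    · rw [hf0 z hz, zero_mul]
  · intro z
    by_cases hz : z ∈ Z
    · rw [hf z hz]
      exact Polynomial.aeval_mem_adjoin_singleton K b
    · rw [hf0 z hz]
      exact Subalgebra.zero_mem _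

end spectral

end Pool.Agent.Helper56.SKV
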