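import Mathlib
import Pool.Agent.Helper56.SKV.Red
import Pool.Agent.Helper56.SKW.Div

/-!
# Tools for the degeneration argument
-/

namespace Pool.Agent.Helper56.SKV

open Module Matrix Polynomial

universe u v

theorem map_aeval {R S I : Type*} [CommRing R] [CommRing S] [Fintype I] [DecidableEq I]
    (g : R →+* S) (B : Matrix I I R) (P : R[X]) :
    (aeval B P).map g = aeval (B.map g) (P.map g) := by
  have h := Polynomial.map_aeval_eq_aeval_map (φ := g) (ψ := g.mapMatrix (m := I)) (by
    ext r i j
    simp [Matrix.algebraMap_eq_diagonal, Matrix.diagonal_apply]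
    split_ifs <;> simp) P B
  exact h

/-- Reduction of a subspace killed by a polynomial in a matrix. -/
theorem red_le_gen {K : Type u} [Field K] {O : ValuationSubring K} {I : Type v} [Fintype I]
    [DecidableEq I] (B : Matrix I I O) (P : O[X]) (z : IsLocalRing.ResidueField O) (m : ℕ)
    (hP : P.map (IsLocalRing.residue O) = (X - C z) ^ m) (U : Submodule K (I → K))
    (hU : ∀ x ∈ U, (aeval (B.map O.subtype) (P.map O.subtype)).mulVec x = 0) :
    red O U ≤ Module.End.maxGenEigenspace
      (Matrix.toLinAlgEquiv' (B.map (IsLocalRing.residue O))) z := by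
  intro y hy
  have h1 := red_map (aeval B P) (W := U) (W' := ⊥) (by
    intro x hx
    rw [map_aeval, hU x hx]
    exact Submodule.zero_mem _) y hy
  rw [red_bot, Submodule.mem_bot, map_aeval, hP] at h1
  rw [Module.End.mem_maxGenEigenspace]
  refine ⟨m, ?_⟩
  have h2 : (Matrix.toLinAlgEquiv' (B.map (IsLocalRing.residue O)) - z • 1) ^ m =
      Matrix.toLinAlgEquiv' (aeval (B.map (IsLocalRing.residue O))
        ((X - C z) ^ m : (IsLocalRing.ResidueField O)[X])) := by
    simp only [map_pow, map_sub, aeval_X, aeval_C, Algebra.algebraMap_eq_smul_one, map_smul,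
      map_one]
  rw [h2]
  exact h1

theorem finrank_map_add {F V V' : Type*} [Field F] [AddCommGroup V] [Module F V]
    [AddCommGroup V'] [Module F V'] [FiniteDimensional F V] (P : V →ₗ[F] V')
    (W : Submodule F V) :
    finrank F (W.map P) + finrank F ↥(W ⊓ LinearMap.ker P) = finrank F W := by
  have h1 := LinearMap.finrank_range_add_finrank_ker (P.domRestrict W)
  have h2 : LinearMap.range (P.domRestrict W) = W.map P := by
    ext x
    simp [Submodule.mem_map]
  have h3 : finrank F (LinearMap.ker (P.domRestrict W)) =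
      finrank F ↥(W ⊓ LinearMap.ker P) := by
    have h4 : LinearMap.ker (P.domRestrict W) = (W ⊓ LinearMap.ker P).comap W.subtype := by
      ext x
      simp
    rw [h4]
    exact (Submodule.comapSubtypeEquivOfLe inf_le_left).finrank_eq
  rw [h2, h3] at h1
  exact h1

theorem sum_finrank_le {F V ι : Type*} [Field F] [AddCommGroup V] [Module F V]
    [FiniteDimensional F V] [Fintype ι] (S : ι → Submodule F V) (h : iSupIndep S)
    (W : Submodule F V) (hW : ∀ i, S i ≤ W) : ∑ i, finrank F (S i) ≤ finrank F W := by
  classical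
  have hinj := h.dfinsupp_lsum_injective
  let T : (DirectSum ι fun i => S i) →ₗ[F] V := DirectSum.toModule F ι V fun i => (S i).subtype
  have hT : Function.Injective T := hinj
  have hTW : ∀ x, T x ∈ W := by
    intro x
    induction x using DirectSum.induction_on with
    | zero => rw [map_zero]; exact W.zero_mem
    | of i x =>
      have h3 : T (DirectSum.lof F ι (fun i => S i) i x) = (S i).subtype x := by
        simp only [T]
        rw [DirectSum.toModule_lof]
      have h4 : T (DirectSum.of (fun i => S i) i x) = x := h3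
      rw [h4]
      exact hW i x.2
    | add x y hx hy => rw [map_add]; exact W.add_mem hx hy
  rw [← Module.finrank_directSum F fun i => S i]
  exact LinearMap.finrank_le_finrank_of_injective (f := T.codRestrict W hTW)
    (fun a b hab => hT (congrArg Subtype.val hab))

theorem sum_gen_le {F V : Type*} [Field F] [AddCommGroup V] [Module F V]
    [FiniteDimensional F V] (T : Module.End F V) (W : Submodule F V) (Z : Finset F) :
    ∑ z ∈ Z, finrank F ↥(W ⊓ T.maxGenEigenspace z) ≤ finrank F W := by
  classical
  have h1 : iSupIndep fun z : Z => W ⊓ T.maxGenEigenspace (z : F) :=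
    ((Module.End.independent_maxGenEigenspace T).comp Subtype.val_injective).mono
      fun z => inf_le_right
  have h2 := sum_finrank_le _ h1 W fun z => inf_le_left
  rw [← Finset.sum_coe_sort Z fun z => finrank F ↥(W ⊓ T.maxGenEigenspace z)]
  exact h2

theorem finrank_sup_sum {F V ι : Type*} [Field F] [AddCommGroup V] [Module F V]
    [FiniteDimensional F V] (S : ι → Submodule F V) (Z : Finset ι) (W : Submodule F V)
    (hW : ∀ w ∈ W, ∃ g : ι → V, (∀ i ∈ Z, g i ∈ S i) ∧ w = ∑ i ∈ Z, g i) :
    finrank F W ≤ ∑ i ∈ Z, finrank F (S i) := by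
  classical
  have h1 : ∀ Z : Finset ι, finrank F ↥(Z.sup S) ≤ ∑ i ∈ Z, finrank F (S i) := by
    intro Z
    induction Z using Finset.induction_on with
    | empty => simp
    | insert a Z ha ih =>
      rw [Finset.sup_insert, Finset.sum_insert ha]
      exact (Submodule.finrank_add_le_finrank_add_finrank _ _).trans (by omega)
  refine le_trans (Submodule.finrank_mono ?_) (h1 Z)
  intro w hw
  obtain ⟨g, hg, rfl⟩ := hW w hw
  exact Submodule.sum_mem _ fun i hi => Finset.le_sup (f := S) hi (hg i hi)

/-- A finite-dimensional algebra over an algebraically closed field, modulo its radical. -/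
theorem exists_comps (K A : Type*) [Field K] [IsAlgClosed K] [Ring A] [Algebra K A]
    [FiniteDimensional K A] :
    ∃ (t : ℕ) (d : Fin t → ℕ) (π : A →ₐ[K] ((i : Fin t) → Matrix (Fin (d i)) (Fin (d i)) K)),
      (∀ i, 0 < d i) ∧ Function.Surjective π ∧ ∀ a : A, π a = 0 → IsNilpotent a := by
  have hart : IsArtinianRing A := IsArtinianRing.of_finite K A
  have hsp : IsSemiprimaryRing A := inferInstance
  have hss : IsSemisimpleRing (A ⧸ Ring.jacobson A) := hsp.isSemisimpleRing
  have hfd : FiniteDimensional K (A ⧸ Ring.jacobson A) :=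
    Module.Finite.of_surjective (Ideal.Quotient.mkₐ K (Ring.jacobson A)).toLinearMap
      (Ideal.Quotient.mkₐ_surjective K _)
  obtain ⟨t, d, hd, ⟨e⟩⟩ :=
    IsSemisimpleRing.exists_algEquiv_pi_matrix_of_isAlgClosed K (A ⧸ Ring.jacobson A)
  refine ⟨t, d, (e : _ →ₐ[K] _).comp (Ideal.Quotient.mkₐ K (Ring.jacobson A)), fun i =>
    Nat.pos_of_ne_zero (hd i).out, ?_, ?_⟩
  · intro y
    obtain ⟨a, ha⟩ := Ideal.Quotient.mkₐ_surjective K (Ring.jacobson A) (e.symm y)
    refine ⟨a, ?_⟩
    show e (Ideal.Quotient.mkₐ K (Ring.jacobson A) a) = y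
    rw [ha, e.apply_symm_apply]
  · intro a ha
    have h1 : e (Ideal.Quotient.mkₐ K (Ring.jacobson A) a) = 0 := ha
    have h2 : Ideal.Quotient.mkₐ K (Ring.jacobson A) a = 0 := by
      apply e.injective
      rw [h1, map_zero]
    have h3 : a ∈ Ring.jacobson A := Ideal.Quotient.eq_zero_iff_mem.1 h2
    obtain ⟨n, hn⟩ := hsp.isNilpotent
    refine ⟨n, ?_⟩
    have := Ideal.pow_mem_pow h3 n
    rw [hn] at this
    simpa using this

end Pool.Agent.Helper56.SKV
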