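import Mathlib
import Pool.Agent.Helper56.SKV.Tools

/-!
# Degrees of the simple modules of the generic algebra
-/

namespace Pool.Agent.Helper56.SKV

open Module Matrix Polynomial

universe u

section main

variable {K : Type u} [Field K] {I : Type*} [Fintype I] [DecidableEq I]

/-- The linear map of evaluation at a vector. -/
def evl (A : Subalgebra K (Matrix I I K)) (e0 : I → K) : A →ₗ[K] (I → K) where
  toFun a := (a : Matrix I I K).mulVec e0
  map_add' _ _ := Matrix.add_mulVec _ _ _
  map_smul' _ _ := Matrix.smul_mulVec _ _ _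

theorem evl_apply (A : Subalgebra K (Matrix I I K)) (e0 : I → K) (a : A) :
    evl A e0 a = (a : Matrix I I K).mulVec e0 := rfl

theorem evl_mul (A : Subalgebra K (Matrix I I K)) (e0 : I → K) (a b : A) :
    evl A e0 (a * b) = (a : Matrix I I K).mulVec (evl A e0 b) := by
  rw [evl_apply, evl_apply, Matrix.mulVec_mulVec]
  rfl

/-- Right multiplication. -/
theorem right_aeval (A : Subalgebra K (Matrix I I K)) (e0 : I → K) (b : A) (R : Matrix I I K)
    (hR : ∀ a : A, R.mulVec (evl A e0 a) = evl A e0 (a * b)) (P : K[X]) (a : A) :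
    (aeval R P).mulVec (evl A e0 a) = evl A e0 (a * aeval b P) := by
  induction P using Polynomial.induction_on' with
  | add p q hp hq => rw [map_add, map_add, Matrix.add_mulVec, hp, hq, mul_add, map_add]
  | monomial n c =>
    rw [aeval_monomial, aeval_monomial]
    have h1 : ∀ (n : ℕ) (a : A), (R ^ n).mulVec (evl A e0 a) = evl A e0 (a * b ^ n) := by
      intro n
      induction n with
      | zero => intro a; simp
      | succ n ih =>
        intro a
        rw [pow_succ, ← Matrix.mulVec_mulVec, hR, ih, pow_succ', mul_assoc]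
    rw [← Algebra.smul_def, ← Algebra.smul_def, Matrix.smul_mulVec, h1, mul_smul_comm, map_smul]

theorem left_aeval (A : Subalgebra K (Matrix I I K)) (e0 : I → K) (b : A) (P : K[X]) (a : A) :
    (aeval (b : Matrix I I K) P).mulVec (evl A e0 a) = evl A e0 (aeval b P * a) := by
  rw [evl_mul]
  have h1 := Polynomial.aeval_algHom_apply A.val b P
  have h2 : aeval (b : Matrix I I K) P = ((aeval b P : A) : Matrix I I K) := h1
  rw [h2]

end main

section deg

/-- The degrees of the simple modules of the generic algebra are bounded. -/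
theorem exists_bounded {k K : Type u} [Field k] [Field K] [IsAlgClosed K] (φ : k[X] →+* K)
    (hφ : Function.Injective φ) {X I : Type*} [Fintype I] [DecidableEq I]
    (Γ : X → Matrix I I k[X]) (A : Subalgebra K (Matrix I I K))
    (hA : ∀ x, (Γ x).map φ ∈ A)
    (e0 : I → K) (hcyc : ∀ v : I → K, ∃ a ∈ A, a.mulVec e0 = v)
    (hfin : finrank K A ≤ Fintype.card I) (D : ℕ)
    (B R : Matrix I I k[X]) (hB : B.map φ ∈ A)
    (hR : ∀ a ∈ A, (R.map φ).mulVec (a.mulVec e0) = (a * B.map φ).mulVec e0)
    (hsp : ∀ (F : Type u) [Field F] [IsAlgClosed F] (ψ : k[X] →+* F), ψ Polynomial.X = 0 →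
      ∃ Z : Finset F,
        (∀ W : Submodule F (I → F), (∀ x, ∀ w ∈ W, ((Γ x).map ψ).mulVec w ∈ W) →
          finrank F W = D * ∑ z ∈ Z, finrank F
            ↥(W ⊓ Module.End.maxGenEigenspace (Matrix.toLinAlgEquiv' (B.map ψ)) z)) ∧
        (∀ z ∈ Z, finrank F
          ↥(Module.End.maxGenEigenspace (Matrix.toLinAlgEquiv' (B.map ψ)) z ⊓
            Module.End.maxGenEigenspace (Matrix.toLinAlgEquiv' (R.map ψ)) z) ≤ 1) ∧
        (∀ z ∈ Z, ∀ z' ∈ Z, z ≠ z' →
          (Module.End.maxGenEigenspace (Matrix.toLinAlgEquiv' (B.map ψ)) z ⊓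
            Module.End.maxGenEigenspace (Matrix.toLinAlgEquiv' (R.map ψ)) z' = ⊥) ∨
          (Module.End.maxGenEigenspace (Matrix.toLinAlgEquiv' (B.map ψ)) z' ⊓
            Module.End.maxGenEigenspace (Matrix.toLinAlgEquiv' (R.map ψ)) z = ⊥))) :
    ∃ (t : ℕ) (d : Fin t → ℕ) (π : A →ₐ[K] ((i : Fin t) → Matrix (Fin (d i)) (Fin (d i)) K)),
      (∀ i, d i ≤ D) ∧ ∀ a : A, π a = 0 → IsNilpotent a := by
  classical
  -- the valuation ring
  have hI : Ideal.span {(⟨φ Polynomial.X, Polynomial.X, rfl⟩ : φ.range)} ≠ ⊤ := by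
    intro htop
    have h2 : (1 : φ.range) ∈ Ideal.span {(⟨φ Polynomial.X, Polynomial.X, rfl⟩ : φ.range)} := by
      rw [htop]; trivial
    obtain ⟨⟨_, q, rfl⟩, hq⟩ := Ideal.mem_span_singleton'.1 h2
    have h3 : φ (q * Polynomial.X) = φ 1 := by
      have h4 := congrArg Subtype.val hq
      simp only [Subring.coe_mul, Subring.coe_one] at h4
      rw [map_mul, map_one, ← h4]
    have h5 := hφ h3
    have h6 := congrArg (Polynomial.eval 0) h5
    simp at h6
  obtain ⟨O, hO, hnon⟩ := Ideal.image_subset_nonunits_valuationSubring _ hI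
  have hO' : ∀ q, φ q ∈ O := fun q => hO ⟨q, rfl⟩
  let φ' : k[X] →+* O := φ.codRestrict O.toSubring hO'
  have hφ' : ((O.subtype : O → K) ∘ (φ' : k[X] → O)) = (φ : k[X] → K) := rfl
  have hX : IsLocalRing.residue O (φ' Polynomial.X) = 0 := by
    rw [IsLocalRing.residue_eq_zero_iff]
    have h1 : φ Polynomial.X ∈ O.nonunits :=
      hnon ⟨⟨φ Polynomial.X, Polynomial.X, rfl⟩, Ideal.subset_span rfl, rfl⟩
    exact (ValuationSubring.coe_mem_nonunits_iff (a := φ' Polynomial.X)).1 h1
  let F := IsLocalRing.ResidueField O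
  let ψ : k[X] →+* F := (IsLocalRing.residue O).comp φ'
  have hFc : IsAlgClosed F := residue_algClosed O
  obtain ⟨Zv, h1, h2, h3⟩ := hsp F ψ hX
  -- evaluation
  let b : A := ⟨B.map φ, hB⟩
  have hevs : Function.Surjective (evl A e0) := by
    intro v
    obtain ⟨a, ha, hav⟩ := hcyc v
    exact ⟨⟨a, ha⟩, hav⟩
  have hNA : finrank K A = Fintype.card I := by
    refine le_antisymm hfin ?_
    have := LinearMap.finrank_le_finrank_of_surjective hevs
    simpa using this
  have hevi : Function.Injective (evl A e0) :=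
    (LinearMap.injective_iff_surjective_of_finrank_eq_finrank (by rw [hNA]; simp)).2 hevs
  obtain ⟨t, d, π, hd, hπs, hπn⟩ := exists_comps K A
  refine ⟨t, d, π, ?_, hπn⟩
  -- spectral idempotents
  let χ : O[X] := (B.map φ').charpoly
  have hχ : aeval b (χ.map O.subtype) = 0 := by
    apply Subtype.val_injective
    have e1 : ((aeval b (χ.map O.subtype) : A) : Matrix I I K) =
        aeval (B.map φ) (χ.map O.subtype) := (Polynomial.aeval_algHom_apply A.val b _).symm
    have e2 : χ.map O.subtype = (B.map φ).charpoly := by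
      simp only [χ]
      rw [← Matrix.charpoly_map, Matrix.map_map, hφ']
    show ((aeval b (χ.map O.subtype) : A) : Matrix I I K) = 0
    rw [e1, e2, Matrix.aeval_self_charpoly]
  obtain ⟨Zs, f, P, m, hf0, hf1, hfo, hPm, hPf, hfP, hfb⟩ :=
    exists_spectral O b χ (Matrix.charpoly_monic _) hχ
  have hfi : ∀ z, f z * f z = f z := by
    intro z
    by_cases hz : z ∈ Zs
    · have e1 : f z * ∑ z' ∈ Zs, f z' = f z * f z := by
        rw [Finset.mul_sum, Finset.sum_eq_single z]
        · intro z' _ hne
          exact hfo z z' (Ne.symm hne)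
        · intro h; exact absurd hz h
      rw [← e1, hf1, mul_one]
    · rw [hf0 z hz, mul_zero]
  let G : F → Submodule F (I → F) := fun z =>
    Module.End.maxGenEigenspace (Matrix.toLinAlgEquiv' (B.map ψ)) z
  let G' : F → Submodule F (I → F) := fun z =>
    Module.End.maxGenEigenspace (Matrix.toLinAlgEquiv' (R.map ψ)) z
  let fm : F → Module.End K (I → K) := fun z => Matrix.toLinAlgEquiv' ((f z : A) : Matrix I I K)
  have hfm : ∀ z v, fm z v = ((f z : A) : Matrix I I K).mulVec v := fun z v => rfl
  have hfmi : ∀ z v, fm z (fm z v) = fm z v := by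
    intro z v
    rw [hfm, hfm, Matrix.mulVec_mulVec]
    have : ((f z : A) : Matrix I I K) * ((f z : A) : Matrix I I K) = ((f z * f z : A) : Matrix I I K) :=
      rfl
    rw [this, hfi]
  -- spectral decomposition of stable subspaces
  have hdec : ∀ W : Submodule K (I → K), (∀ a : A, ∀ w ∈ W, (a : Matrix I I K).mulVec w ∈ W) →
      ∀ z ∈ Zv, finrank K (W.map (fm z)) = finrank F ↥(red O W ⊓ G z) := by
    intro W hW
    let Z := Zs ∪ Zv
    have hle : ∀ z, finrank K (W.map (fm z)) ≤ finrank F ↥(red O W ⊓ G z) := by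
      intro z
      rw [← red_finrank (O := O) (W.map (fm z))]
      apply Submodule.finrank_mono
      refine le_inf (red_mono ?_) ?_
      · rintro _ ⟨w, hw, rfl⟩
        exact hW (f z) w hw
      · have e1 := red_le_gen (B.map φ') (P z) z (m z) (hPm z) (W.map (fm z)) (by
          rintro _ ⟨w, hw, rfl⟩
          rw [hfm]
          obtain ⟨a, rfl⟩ := hevs w
          rw [← evl_mul, Matrix.map_map, hφ']
          have e2 := left_aeval A e0 b ((P z).map O.subtype) (f z * a)
          have e3 : ((b : A) : Matrix I I K) = B.map φ := rfl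
          rw [e3] at e2
          rw [e2, ← mul_assoc, hPf, zero_mul, map_zero])
        rw [Matrix.map_map] at e1
        exact e1
    have hsum1 : finrank K W ≤ ∑ z ∈ Z, finrank K (W.map (fm z)) := by
      refine finrank_sup_sum (fun z => W.map (fm z)) Z W ?_
      intro w hw
      refine ⟨fun z => fm z w, fun z _ => ⟨w, hw, rfl⟩, ?_⟩
      have e1 : ∑ z ∈ Z, f z = 1 := by
        rw [← hf1]
        symm
        refine Finset.sum_subset Finset.subset_union_left ?_
        intro z _ hz
        exact hf0 z hz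
      have e2 : ∑ z ∈ Z, fm z w = (∑ z ∈ Z, ((f z : A) : Matrix I I K)).mulVec w := by
        rw [Matrix.sum_mulVec]
        rfl
      have e3 : ∑ z ∈ Z, ((f z : A) : Matrix I I K) = 1 := by
        have := congrArg (A.val) e1
        rw [map_sum, map_one] at this
        exact this
      rw [e2, e3, Matrix.one_mulVec]
    have hsum2 := sum_gen_le (Matrix.toLinAlgEquiv' (B.map ψ)) (red O W) Z
    rw [red_finrank] at hsum2
    have hsum3 : ∑ z ∈ Z, finrank K (W.map (fm z)) = ∑ z ∈ Z, finrank F ↥(red O W ⊓ G z) :=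
      le_antisymm (Finset.sum_le_sum fun z _ => hle z) (hsum2.trans hsum1)
    intro z hz
    exact (Finset.sum_eq_sum_iff_of_le fun z _ => hle z).1 hsum3 z (Finset.mem_union_right _ hz)
  have hdim : ∀ W : Submodule K (I → K), (∀ a : A, ∀ w ∈ W, (a : Matrix I I K).mulVec w ∈ W) →
      finrank K W = D * ∑ z ∈ Zv, finrank K (W.map (fm z)) := by
    intro W hW
    rw [← red_finrank (O := O) W, h1 (red O W)]
    · congr 1
      exact Finset.sum_congr rfl fun z hz => (hdec W hW z hz).symm
    · intro x y hy
      have e1 := red_map ((Γ x).map φ') (W := W) (W' := W) (by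
        intro w hw
        rw [Matrix.map_map, hφ']
        exact hW ⟨_, hA x⟩ w hw) y hy
      rw [Matrix.map_map] at e1
      exact e1
  intro i
  let E : A ≃ₗ[K] (I → K) := LinearEquiv.ofBijective (evl A e0) ⟨hevi, hevs⟩
  have hE : ∀ a, E.symm (evl A e0 a) = a := fun a => E.symm_apply_apply a
  let g : (Fin (d i) → K) → ((I → K) →ₗ[K] (Fin (d i) → K)) := fun x =>
    { toFun := fun v => (π (E.symm v) i).mulVec x
      map_add' := fun a b => by
        rw [map_add, map_add, Pi.add_apply, Matrix.add_mulVec]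
      map_smul' := fun c a => by
        rw [map_smul, map_smul, Pi.smul_apply, Matrix.smul_mulVec, RingHom.id_apply] }
  have hg : ∀ x a, g x (evl A e0 a) = (π a i).mulVec x := by
    intro x a
    show (π (E.symm (evl A e0 a)) i).mulVec x = _
    rw [hE]
  let q := g (Pi.single ⟨0, hd i⟩ 1)
  have hqm : ∀ (a : A) v, q ((a : Matrix I I K).mulVec v) = (π a i).mulVec (q v) := by
    intro a v
    obtain ⟨c, rfl⟩ := hevs v
    rw [← evl_mul]
    show g _ _ = (π a i).mulVec (g _ _)
    rw [hg, hg, map_mul, Pi.mul_apply, Matrix.mulVec_mulVec]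
  have hqs : Function.Surjective q := by
    intro v
    obtain ⟨a, ha⟩ := hπs (Pi.single i (Matrix.of fun r _ => v r))
    refine ⟨evl A e0 a, ?_⟩
    show g _ _ = v
    rw [hg, ha, Pi.single_eq_same]
    funext r
    simp
  let W : Submodule K (I → K) := LinearMap.ker q
  have hWst : ∀ a : A, ∀ w ∈ W, (a : Matrix I I K).mulVec w ∈ W := by
    intro a w hw
    have hw' : q w = 0 := hw
    rw [LinearMap.mem_ker, hqm, hw', Matrix.mulVec_zero]
  have hWd : finrank K W + d i = Fintype.card I := by
    have e1 := LinearMap.finrank_range_add_finrank_ker q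
    rw [LinearMap.range_eq_top.2 hqs, finrank_top] at e1
    simp only [Module.finrank_fintype_fun_eq_card, Fintype.card_fin] at e1
    show finrank K (LinearMap.ker q) + d i = _
    omega
  let S : F → Submodule K (Fin (d i) → K) := fun z =>
    ((⊤ : Submodule K (I → K)).map (fm z)).map q
  have hS : ∀ z, ∀ x ∈ S z, (π (f z) i).mulVec x = x := by
    rintro z _ ⟨_, ⟨v, _, rfl⟩, rfl⟩
    rw [← hqm, ← hfm, hfmi]
  have hrank : ∀ z, finrank K ((⊤ : Submodule K (I → K)).map (fm z)) =
      finrank K (W.map (fm z)) + finrank K (S z) := by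
    intro z
    have e1 := finrank_map_add q
      ((⊤ : Submodule K (I → K)).map (fm z))
    have e2 : (⊤ : Submodule K (I → K)).map (fm z) ⊓ LinearMap.ker q = W.map (fm z) := by
      apply le_antisymm
      · rintro _ ⟨⟨v, _, rfl⟩, hv⟩
        exact ⟨fm z v, hv, hfmi z v⟩
      · rintro _ ⟨w, hw, rfl⟩
        exact ⟨⟨w, trivial, rfl⟩, hWst (f z) w hw⟩
    rw [e2] at e1
    show _ = finrank K (W.map (fm z)) + finrank K (((⊤ : Submodule K (I → K)).map (fm z)).map q)
    omega
  have hdi : d i = D * ∑ z ∈ Zv, finrank K (S z) := by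
    have e1 := hdim ⊤ (fun _ _ _ => trivial)
    have e2 := hdim W hWst
    rw [Finset.sum_congr rfl fun z _ => hrank z, Finset.sum_add_distrib, mul_add, ← e2,
      finrank_top] at e1
    simp only [Module.finrank_fintype_fun_eq_card] at e1
    omega
  -- the key inequality
  have key : ∀ z z', ∀ x ∈ S z', x ≠ 0 → finrank K (S z) ≤ finrank F ↥(G z ⊓ G' z') := by
    intro z z' x hx hx0
    let U : Submodule K (I → K) := LinearMap.range ((evl A e0).comp
      ((LinearMap.mulLeft K (f z)).comp (LinearMap.mulRight K (f z'))))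
    have hU : ∀ y, y ∈ U ↔ ∃ a : A, evl A e0 (f z * (a * f z')) = y := fun y => Iff.rfl
    have e1 : S z ≤ U.map (g x) := by
      intro y hy
      obtain ⟨c0, hc0⟩ : ∃ c0, x c0 ≠ 0 := by
        by_contra hcon
        push Not at hcon
        exact hx0 (funext hcon)
      obtain ⟨a, ha⟩ := hπs (Pi.single i (Matrix.of fun r c =>
        if c = c0 then y r * (x c0)⁻¹ else 0))
      refine ⟨evl A e0 (f z * (a * f z')), ⟨a, rfl⟩, ?_⟩
      rw [hg, map_mul, map_mul, Pi.mul_apply, Pi.mul_apply, ← Matrix.mulVec_mulVec,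
        ← Matrix.mulVec_mulVec, hS z' x hx, ha, Pi.single_eq_same]
      have e2 : (Matrix.of fun r c => if c = c0 then y r * (x c0)⁻¹ else 0).mulVec x = y := by
        funext r
        simp only [mulVec, dotProduct, Matrix.of_apply, ite_mul, zero_mul]
        rw [Finset.sum_ite_eq' Finset.univ c0 fun c => y r * (x c0)⁻¹ * x c]
        simp [hc0]
      rw [e2, hS z y hy]
    have e2 : red O U ≤ G z ⊓ G' z' := by
      refine le_inf ?_ ?_
      · have e3 := red_le_gen (B.map φ') (P z) z (m z) (hPm z) U (by
          rintro _ ⟨a, rfl⟩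
          show (aeval ((B.map φ').map O.subtype) ((P z).map O.subtype)).mulVec
            (evl A e0 (f z * (a * f z'))) = 0
          rw [Matrix.map_map, hφ']
          have e4 := left_aeval A e0 b ((P z).map O.subtype) (f z * (a * f z'))
          have e5 : ((b : A) : Matrix I I K) = B.map φ := rfl
          rw [e5] at e4
          rw [e4, ← mul_assoc, hPf, zero_mul, map_zero])
        rw [Matrix.map_map] at e3
        exact e3
      · have e3 := red_le_gen (R.map φ') (P z') z' (m z') (hPm z') U (by
          rintro _ ⟨a, rfl⟩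
          show (aeval ((R.map φ').map O.subtype) ((P z').map O.subtype)).mulVec
            (evl A e0 (f z * (a * f z'))) = 0
          rw [Matrix.map_map, hφ']
          have e4 := right_aeval A e0 b (R.map φ) (by
            intro a
            exact hR a a.2) ((P z').map O.subtype) (f z * (a * f z'))
          rw [e4, mul_assoc, mul_assoc, hfP, mul_zero, mul_zero, map_zero])
        rw [Matrix.map_map] at e3
        exact e3
    calc finrank K (S z) ≤ finrank K (U.map (g x)) := Submodule.finrank_mono e1
      _ ≤ finrank K U := Submodule.finrank_map_le _ _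
      _ = finrank F (red O U) := (red_finrank U).symm
      _ ≤ _ := Submodule.finrank_mono e2
  have hone : ∑ z ∈ Zv, finrank K (S z) ≤ 1 := by
    by_cases hz : ∃ z0 ∈ Zv, S z0 ≠ ⊥
    · obtain ⟨z0, hz0, hne⟩ := hz
      obtain ⟨x, hx, hx0⟩ := (Submodule.ne_bot_iff _).1 hne
      rw [Finset.sum_eq_single z0]
      · exact (key z0 z0 x hx hx0).trans (h2 z0 hz0)
      · intro z hz hzz
        by_contra hcon
        have hSz : S z ≠ ⊥ := by
          intro h0
          apply hcon
          rw [h0, finrank_bot]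
        obtain ⟨y, hy, hy0⟩ := (Submodule.ne_bot_iff _).1 hSz
        have hz1 := key z z0 x hx hx0
        have hz2 := key z0 z y hy hy0
        have hpos1 : 0 < finrank K (S z) := Nat.pos_of_ne_zero hcon
        have hpos2 : 0 < finrank K (S z0) := by
          rw [Nat.pos_iff_ne_zero]
          intro h0
          exact hne (Submodule.finrank_eq_zero.1 h0)
        rcases h3 z hz z0 hz0 hzz with h | h
        · have h' : G z ⊓ G' z0 = ⊥ := h
          rw [h', finrank_bot] at hz1
          omega
        · have h' : G z0 ⊓ G' z = ⊥ := h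
          rw [h', finrank_bot] at hz2
          omega
      · intro h; exact absurd hz0 h
    · push Not at hz
      rw [Finset.sum_eq_zero]
      · exact Nat.zero_le _
      · intro z hz'
        rw [hz z hz', finrank_bot]
  rw [hdi]
  calc D * ∑ z ∈ Zv, finrank K (S z) ≤ D * 1 := Nat.mul_le_mul_left _ hone
    _ = D := mul_one D

end deg

end Pool.Agent.Helper56.SKV
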