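import Mathlib
import Pool.Agent.Helper56.SKU.Wt
import Pool.Agent.Helper56.SKU.Span
import Pool.Agent.Helper56.SKV.Tools

/-!
# Labels of commuting toral operators
-/

namespace Pool.Agent.Helper56.SKV

open Module Polynomial Pool.Agent.Helper56.SKU

section zmod

variable {p : ℕ} [hp : Fact p.Prime] {F : Type*} [Field F] [CharP F p]

/-- The embedding of the prime field. -/
def zc (p : ℕ) (F : Type*) [Field F] [CharP F p] : ZMod p →+* F := ZMod.castHom (dvd_refl p) F

theorem exists_zmod {x : F} (hx : x ^ p = x) : ∃ c : ZMod p, zc p F c = x := by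
  have h1 := (Subfield.mem_bot_iff_pow_eq_self F p).2 hx
  rw [← ZMod.fieldRange_castHom_eq_bot p] at h1
  obtain ⟨c, hc⟩ := h1
  exact ⟨c, hc⟩

end zmod

section gen

variable {F V : Type*} [Field F] [AddCommGroup V] [Module F V] [FiniteDimensional F V]

omit [FiniteDimensional F V] in
theorem gen_stable (T S : Module.End F V) (h : S * T = T * S) (z : F) :
    ∀ v ∈ T.maxGenEigenspace z, S v ∈ T.maxGenEigenspace z := by
  intro v hv
  rw [Module.End.mem_maxGenEigenspace] at hv ⊢
  obtain ⟨n, hn⟩ := hv
  refine ⟨n, ?_⟩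
  have h1 : Commute S (T - z • 1) := by
    show S * (T - z • 1) = (T - z • 1) * S
    rw [mul_sub, sub_mul, h, mul_smul_comm, smul_mul_assoc, mul_one, one_mul]
  have h2 : ((T - z • 1) ^ n) * S = S * ((T - z • 1) ^ n) := (h1.pow_right n).symm
  rw [← Module.End.mul_apply, h2, Module.End.mul_apply, hn, map_zero]

omit [FiniteDimensional F V] in
/-- Extracting the part of a span in a generalised eigenspace. -/
theorem span_gen (T : Module.End F V) (X : Set V) (hX : ∀ x ∈ X, ∃ κ, x ∈ T.maxGenEigenspace κ)
    (z : F) {y : V} (hy : y ∈ Submodule.span F X) (hyz : y ∈ T.maxGenEigenspace z) :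
    y ∈ Submodule.span F (X ∩ T.maxGenEigenspace z) := by
  have h1 : Submodule.span F X ≤ Submodule.span F (X ∩ T.maxGenEigenspace z) ⊔
      ⨆ (κ : F) (_ : κ ≠ z), T.maxGenEigenspace κ := by
    rw [Submodule.span_le]
    intro x hx
    obtain ⟨κ, hκ⟩ := hX x hx
    by_cases h : κ = z
    · subst h
      exact Submodule.mem_sup_left (Submodule.subset_span ⟨hx, hκ⟩)
    · exact Submodule.mem_sup_right (Submodule.mem_iSup_of_mem κ (Submodule.mem_iSup_of_mem h hκ))
  obtain ⟨a, ha, c, hc, rfl⟩ := Submodule.mem_sup.1 (h1 hy)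
  have ha' : a ∈ T.maxGenEigenspace z := by
    have : Submodule.span F (X ∩ T.maxGenEigenspace z) ≤ T.maxGenEigenspace z := by
      rw [Submodule.span_le]
      exact Set.inter_subset_right
    exact this ha
  have hc' : c ∈ T.maxGenEigenspace z := by
    have := Submodule.sub_mem _ hyz ha'
    rwa [add_sub_cancel_left] at this
  have hdis := Module.End.independent_maxGenEigenspace T z
  have hc0 : c = 0 := (Submodule.disjoint_def.1 hdis) c hc' hc
  rw [hc0, add_zero]
  exact ha

end gen

section lab

variable {p : ℕ} [hp : Fact p.Prime] {F V : Type*} [Field F] [CharP F p] [AddCommGroup V]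
  [Module F V] {ι : Type*} [Fintype ι] (H : ι → Module.End F V) (c : ι → F)

/-- The value of a label. -/
def val (p : ℕ) {F : Type*} [Field F] [CharP F p] {ι : Type*} [Fintype ι] (c : ι → F)
    (l : ι → ZMod p) : F := ∑ i, c i * zc p F (l i)

/-- The generic combination. -/
def comb {ι : Type*} [Fintype ι] {A : Type*} [AddCommMonoid A] [Module F A] (H : ι → A)
    (c : ι → F) : A := ∑ i, c i • H i

/-- A joint eigenvector with a given label. -/
def Jt (H : ι → Module.End F V) (l : ι → ZMod p) (x : V) : Prop :=
  ∀ i, H i x = zc p F (l i) • x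

omit hp in
theorem comb_jt {l : ι → ZMod p} {x : V} (h : Jt H l x) : comb H c x = val p c l • x := by
  unfold comb val
  rw [LinearMap.sum_apply, Finset.sum_smul]
  refine Finset.sum_congr rfl fun i _ => ?_
  rw [LinearMap.smul_apply, h i, smul_smul]

omit hp in
theorem gen_of_jt {l : ι → ZMod p} {x : V} (h : Jt H l x) :
    x ∈ (comb H c).maxGenEigenspace (val p c l) := by
  rw [Module.End.mem_maxGenEigenspace]
  refine ⟨1, ?_⟩
  rw [pow_one, LinearMap.sub_apply, comb_jt H c h]
  simp

omit [Fintype ι] in
theorem exists_jt {x : V} (hH : ∀ j, H j ^ p = H j) (h : ∃ d : ι → F, ∀ i, H i x = d i • x) :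
    ∃ l : ι → ZMod p, Jt H l x := by
  by_cases hx : x = 0
  · subst hx
    exact ⟨0, fun i => by simp⟩
  obtain ⟨d, hd⟩ := h
  have h1 : ∀ i, ∃ a : ZMod p, zc p F a = d i := by
    intro i
    apply exists_zmod
    have h2 : ∀ n, (H i ^ n) x = d i ^ n • x := by
      intro n
      induction n with
      | zero => simp
      | succ n ih => rw [pow_succ, Module.End.mul_apply, hd, map_smul, ih, smul_smul, pow_succ,
          mul_comm]
    have h3 := h2 p
    rw [hH, hd] at h3
    have h4 : (d i - d i ^ p) • x = 0 := by rw [sub_smul, h3, sub_self]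
    exact (sub_eq_zero.1 ((smul_eq_zero.1 h4).resolve_right hx)).symm
  choose l hl using h1
  exact ⟨l, fun i => by rw [hl, hd]⟩

/-- Generalised eigenvectors of the generic combination are joint eigenvectors. -/
theorem joint_of_gen [IsAlgClosed F] [FiniteDimensional F V] (hH : ∀ j, H j ^ p = H j)
    (hc : ∀ i j, H i * H j = H j * H i) (hinj : Function.Injective (val p c)) (l0 : ι → ZMod p)
    {x : V} (hx : x ∈ (comb H c).maxGenEigenspace (val p c l0)) : Jt H l0 x := by
  have hst : ∀ j, ∀ v ∈ (comb H c).maxGenEigenspace (val p c l0),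
      H j v ∈ (comb H c).maxGenEigenspace (val p c l0) := by
    intro j
    apply gen_stable
    unfold comb
    rw [Finset.mul_sum, Finset.sum_mul]
    refine Finset.sum_congr rfl fun i _ => ?_
    rw [mul_smul_comm, smul_mul_assoc, hc]
  have h1 := wt_span p H hH hc _ hst hx
  have h2 : Submodule.span F {v | v ∈ (comb H c).maxGenEigenspace (val p c l0) ∧
      ∃ c : ι → F, ∀ j, H j v = c j • v} ≤ ⨅ j, LinearMap.ker (H j - zc p F (l0 j) • 1) := by
    rw [Submodule.span_le]
    rintro v ⟨hv, hd⟩
    obtain ⟨l, hl⟩ := exists_jt H hH hd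
    by_cases hv0 : v = 0
    · subst hv0; exact Submodule.zero_mem _
    have h3 : val p c l = val p c l0 := by
      by_contra hne
      have h4 := gen_of_jt H c hl
      have h5 := ((Module.End.independent_maxGenEigenspace (comb H c)).pairwiseDisjoint hne)
      exact hv0 ((Submodule.disjoint_def.1 h5) v h4 hv)
    have h4 := hinj h3
    subst h4
    rw [SetLike.mem_coe, Submodule.mem_iInf]
    intro j
    rw [LinearMap.mem_ker, LinearMap.sub_apply, hl j]
    simp
  intro i
  have h3 := (Submodule.mem_iInf _).1 (h2 h1) i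
  rw [LinearMap.mem_ker, LinearMap.sub_apply, sub_eq_zero] at h3
  rw [h3]
  simp

end lab

section indep

/-- Generic coefficients. -/
theorem exists_generic (p : ℕ) [hp : Fact p.Prime] (k : Type*) [Field k] [CharP k p] [Infinite k]
    (ι : Type*) [Fintype ι] : ∃ c : ι → k, Function.Injective (val p c) := by
  classical
  let _ : Algebra (ZMod p) k := ZMod.algebra k p
  have hinf : ¬ Module.Finite (ZMod p) k := by
    intro h
    have : Finite k := Module.finite_of_finite (ZMod p)
    exact not_finite k
  let b := Module.Free.chooseBasis (ZMod p) k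
  have hI : Infinite (Module.Free.ChooseBasisIndex (ZMod p) k) := by
    rw [← not_finite_iff_infinite]
    intro h
    exact hinf (Module.Finite.of_basis b)
  let e : ι ↪ Module.Free.ChooseBasisIndex (ZMod p) k :=
    (Fintype.equivFin ι).toEmbedding.trans (Fin.valEmbedding.trans (Infinite.natEmbedding _))
  refine ⟨fun i => b (e i), ?_⟩
  have hli : LinearIndependent (ZMod p) fun i => b (e i) := b.linearIndependent.comp e e.injective
  have h1 : ∀ l, val p (fun i => b (e i)) l = ∑ i, l i • b (e i) := by
    intro l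
    unfold val
    refine Finset.sum_congr rfl fun i _ => ?_
    rw [Algebra.smul_def, mul_comm]
    rfl
  intro l l' hll
  rw [h1, h1, ← sub_eq_zero, ← Finset.sum_sub_distrib] at hll
  have h2 : ∑ i, (l i - l' i) • b (e i) = 0 := by
    rw [← hll]
    exact Finset.sum_congr rfl fun i _ => sub_smul _ _ _
  have h3 := Fintype.linearIndependent_iff.1 hli _ h2
  funext i
  exact sub_eq_zero.1 (h3 i)

theorem val_map {p : ℕ} {k F : Type*} [Field k] [Field F] [CharP k p] [CharP F p] {ι : Type*}
    [Fintype ι] (g : k →+* F) (c : ι → k) (l : ι → ZMod p) :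
    val p (fun i => g (c i)) l = g (val p c l) := by
  unfold val
  rw [map_sum]
  refine Finset.sum_congr rfl fun i _ => ?_
  rw [map_mul]
  congr 1
  exact congrFun (congrArg DFunLike.coe (Subsingleton.elim (zc p F) (g.comp (zc p k)))) (l i)

end indep

end Pool.Agent.Helper56.SKV
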