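import Mathlib

/-!
# Number operators in characteristic `p`
-/

namespace Pool.Agent.Helper56.SKV

open Module Polynomial

variable {F A : Type*} [Field F] [Ring A] [Algebra F A] {a b : A}

theorem comm_aeval (hab : a * b = b * a + 1) (P : F[X]) :
    b * aeval (b * a) P = aeval (b * a) (P.comp (X - 1)) * b := by
  have h1 : b * (b * a) = (b * a - 1) * b := by
    have : (b * a) * b = b * (b * a) + b := by
      rw [mul_assoc b a b, hab, mul_add, mul_one]
    rw [sub_mul, one_mul, this, add_sub_cancel_right]
  induction P using Polynomial.induction_on' with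
  | add p q hp hq => rw [map_add, mul_add, hp, hq, add_comp, map_add, add_mul]
  | monomial n c =>
    have h2 : ∀ n : ℕ, b * (b * a) ^ n = (b * a - 1) ^ n * b := by
      intro n
      induction n with
      | zero => simp
      | succ n ih => rw [pow_succ, ← mul_assoc, ih, mul_assoc, h1, ← mul_assoc, ← pow_succ]
    rw [aeval_monomial, ← Algebra.smul_def, mul_smul_comm, h2, monomial_comp, map_mul, map_pow,
      map_sub, aeval_X, aeval_C, map_one, mul_assoc, ← Algebra.smul_def]

theorem pow_mul_pow (F : Type*) [Field F] [Algebra F A] (hab : a * b = b * a + 1) (n : ℕ) :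
    b ^ n * a ^ n = aeval (b * a) (descPochhammer F n) := by
  induction n with
  | zero => simp
  | succ n ih =>
    rw [pow_succ' b, pow_succ a, descPochhammer_succ_left, map_mul, aeval_X]
    have h1 : b * b ^ n * (a ^ n * a) = (b * (b ^ n * a ^ n)) * a := by noncomm_ring
    rw [h1, ih, comm_aeval hab, mul_assoc]
    have h2 : Commute (b * a) (aeval (b * a) ((descPochhammer F n).comp (X - 1))) :=
      (Commute.refl (b * a)).symm.trans_aeval_sorry
    sorry

end Pool.Agent.Helper56.SKV
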