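import Mathlib
import Pool.Agent.Helper56.SKV.Label

/-!
# Right multiplication operators
-/

namespace Pool.Agent.Helper56.SKV

open Module Polynomial

variable {F V : Type*} [Field F] [IsAlgClosed F] [AddCommGroup V] [Module F V]
  [FiniteDimensional F V]

/-- Generalised eigenspaces of a right multiplication operator. -/
theorem right_gen (B R : Module.End F V) (U : Set (Module.End F V)) (hBR : B * R = R * B)
    (hU : ∀ u ∈ U, u * R = R * u) (e0 : V) (he : R e0 = B e0)
    (hcyc : ∀ v, v ∈ Submodule.span F ((fun u : Module.End F V => u e0) '' U)) (z : F) :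
    ∃ w0 ∈ B.maxGenEigenspace z, ∀ y ∈ R.maxGenEigenspace z,
      y ∈ Submodule.span F ((fun u : Module.End F V => u w0) '' U) := by
  let N : Submodule F V := LinearMap.ker (R - B)
  have hN : ∀ v, v ∈ N ↔ R v = B v := by
    intro v
    rw [LinearMap.mem_ker, LinearMap.sub_apply, sub_eq_zero]
  have hNB : ∀ v ∈ N, B v ∈ N := by
    intro v hv
    rw [hN] at hv ⊢
    rw [← Module.End.mul_apply, ← hBR, Module.End.mul_apply, hv]
  have h1 : N = ⨆ κ, N ⊓ B.maxGenEigenspace κ :=
    Submodule.eq_iSup_inf_genEigenspace ⊤ hNB (Module.End.iSup_maxGenEigenspace_eq_top B)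
  have hSR : ∀ κ, N ⊓ B.maxGenEigenspace κ ≤ R.maxGenEigenspace κ := by
    rintro κ v ⟨hvN, hv⟩
    rw [SetLike.mem_coe, Module.End.mem_maxGenEigenspace] at hv
    rw [Module.End.mem_maxGenEigenspace]
    obtain ⟨n, hn⟩ := hv
    refine ⟨n, ?_⟩
    rw [← hn]
    have h2 : ∀ n : ℕ, ∀ v ∈ N, ((R - κ • 1) ^ n : Module.End F V) v =
        ((B - κ • 1) ^ n : Module.End F V) v := by
      intro n
      induction n with
      | zero => intro v _; rfl
      | succ n ih =>
        intro v hv
        rw [pow_succ, pow_succ, Module.End.mul_apply, Module.End.mul_apply]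
        have h3 : (R - κ • 1 : Module.End F V) v = (B - κ • 1 : Module.End F V) v := by
          rw [LinearMap.sub_apply, LinearMap.sub_apply, (hN v).1 hv]
        rw [h3]
        apply ih
        rw [LinearMap.sub_apply]
        exact N.sub_mem (hNB v hv) (N.smul_mem _ hv)
    exact h2 n v hvN
  have he0 : e0 ∈ N := (hN e0).2 he
  have h2 : N ≤ (N ⊓ B.maxGenEigenspace z) ⊔ ⨆ (κ : F) (_ : κ ≠ z), R.maxGenEigenspace κ := by
    conv_lhs => rw [h1]
    rw [iSup_le_iff]
    intro κ
    by_cases h : κ = z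
    · subst h; exact le_sup_left
    · exact (hSR κ).trans (le_sup_of_le_right (le_iSup₂_of_le κ h le_rfl))
  obtain ⟨w0, hw0, w1, hw1, hsum⟩ := Submodule.mem_sup.1 (h2 he0)
  refine ⟨w0, hw0.2, ?_⟩
  intro y hy
  have hM : ∀ u ∈ U, ∀ v ∈ (⨆ (κ : F) (_ : κ ≠ z), R.maxGenEigenspace κ),
      u v ∈ (⨆ (κ : F) (_ : κ ≠ z), R.maxGenEigenspace κ) := by
    intro u hu
    have h3 : (⨆ (κ : F) (_ : κ ≠ z), R.maxGenEigenspace κ) ≤
        (⨆ (κ : F) (_ : κ ≠ z), R.maxGenEigenspace κ).comap u := by
      refine iSup₂_le fun κ hκ => ?_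
      intro v hv
      exact Submodule.mem_iSup_of_mem κ (Submodule.mem_iSup_of_mem hκ
        (gen_stable R u (hU u hu) κ v hv))
    exact fun v hv => h3 hv
  have h3 : Submodule.span F ((fun u : Module.End F V => u e0) '' U) ≤
      Submodule.span F ((fun u : Module.End F V => u w0) '' U) ⊔
        ⨆ (κ : F) (_ : κ ≠ z), R.maxGenEigenspace κ := by
    rw [Submodule.span_le]
    rintro _ ⟨u, hu, rfl⟩
    show u e0 ∈ _
    rw [← hsum, map_add]
    exact Submodule.add_mem_sup (Submodule.subset_span ⟨u, hu, rfl⟩) (hM u hu w1 hw1)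
  obtain ⟨a, ha, c, hc, rfl⟩ := Submodule.mem_sup.1 (h3 (hcyc y))
  have ha' : a ∈ R.maxGenEigenspace z := by
    have h4 : Submodule.span F ((fun u : Module.End F V => u w0) '' U) ≤
        R.maxGenEigenspace z := by
      rw [Submodule.span_le]
      rintro _ ⟨u, hu, rfl⟩
      exact gen_stable R u (hU u hu) z w0 (hSR z hw0)
    exact h4 ha
  have hc' : c ∈ R.maxGenEigenspace z := by
    have := Submodule.sub_mem _ hy ha'
    rwa [add_sub_cancel_left] at this
  have hdis := Module.End.independent_maxGenEigenspace R z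
  have hc0 : c = 0 := (Submodule.disjoint_def.1 hdis) c hc' hc
  rw [hc0, add_zero]
  exact ha

end Pool.Agent.Helper56.SKV
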